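import Pool.Agent.H.MP_76bd4c_lc.C

set_option autoImplicit false

namespace Pool.Agent.Results.MP_7321fb_lc.NotDec

/-- the finite set with canonical index `u` -/
def Dc (u : ℕ) : Set ℕ := {i | u.testBit i = true}

/-- the value of an enumeration operator -/
def En (T : ℕ × ℕ → Prop) (X : Set ℕ) : Set ℕ := {n | ∃ u, Dc u ⊆ X ∧ T (u, n)}

def LeE (A C : Set ℕ) : Prop := ∃ T, REPred T ∧ En T C = A

def IntroE (A : Set ℕ) : Prop := A.Infinite ∧ ∀ C ⊆ A, C.Infinite → LeE A C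

def UIe (A B : Set ℕ) : Prop := ∃ T, REPred T ∧ ∀ C ⊆ B, C.Infinite → En T C = A

open Pool.Agent.H.MP_76bd4c_lc Pool.Agent.Lib.helper21 PR

attribute [local irreducible] Primrec Computable

theorem result : ∃ A : Set ℕ, IntroE A ∧
    ¬ ∃ (n : ℕ) (B : ℕ → Set ℕ), A = (⋃ i ≤ n, B i) ∧ ∀ i ≤ n, UIe A (B i) := by
  obtain ⟨A, h1, h2, h3⟩ := core (ι := {p : ℕ × ℕ → Prop // REPred p})
    (fun e x C => x ∈ En e.1 C) fun e x C ⟨u, u1, u2⟩ =>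
      ⟨u, fun C' h => ⟨u, fun i k => (h i (tb_lt k)).1 (u1 k), u2⟩⟩
  refine ⟨_, ⟨h2, fun C hC inf => ?_⟩, fun ⟨n, B, k1, k2⟩ => h3 (n + 1) B
    (fun x hx => by simpa [Nat.lt_succ_iff] using k1.le hx) fun i hi => ?_⟩
  · obtain ⟨T, t1, t2⟩ := enum h1 hC inf
    exact ⟨fun z => T (z.1, z.2, true) = true, RE.re (by fun_prop),
      Set.ext fun x => (t2 x true).symm⟩
  · obtain ⟨T, l1, l2⟩ := k2 i (Nat.lt_succ_iff.1 hi)
    exact ⟨⟨T, l1⟩, fun C hC inf x => Set.ext_iff.1 (l2 C hC inf) x⟩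

end Pool.Agent.Results.MP_7321fb_lc.NotDec
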